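import Mathlib
import Pool.Agent.Lib.MP_4d84d8_co.Main

set_option autoImplicit false

namespace Pool.Agent.Results.MP_4d84d8_co.PolyDichotomy

open SimpleGraph

/-- The average degree `2 e(G) / v(G)` of a (finite, nonempty) graph. -/
noncomputable def avgDeg {V : Type} (G : SimpleGraph V) : ℝ :=
  2 * (G.edgeSet.ncard : ℝ) / (Nat.card V : ℝ)

open scoped Classical in
lemma ee_univ {V : Type} [Fintype V] (G : SimpleGraph V) :
    (MP4d84d8.ee G Finset.univ Finset.univ : ℝ) = 2 * (G.edgeSet.ncard : ℝ) := by
  have h1 : MP4d84d8.ee G Finset.univ Finset.univ = ∑ v, G.degree v := by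
    unfold MP4d84d8.ee
    refine Finset.sum_congr rfl fun v _ => ?_
    rw [← SimpleGraph.card_neighborFinset_eq_degree]
    congr 1
    ext u
    simp [MP4d84d8.mem_nb]
  rw [h1, SimpleGraph.sum_degrees_eq_twice_card_edges]
  push_cast
  rw [Set.ncard_eq_toFinset_card', SimpleGraph.edgeFinset]

/-- Full answer to Q1 (positive): for every bipartite graph `H` there is `C` such that every
`H`-free graph of average degree at least `s ^ C` contains `K_{s,s}` or a `C_4`-free induced
subgraph of average degree at least `s`. -/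
theorem result {W : Type} [Finite W] (H : SimpleGraph W) (hH : H.IsBipartite) :
    ∃ C : ℕ, ∀ s : ℕ, 1 ≤ s → ∀ (V : Type) [Finite V] [Nonempty V] (G : SimpleGraph V),
      ¬ H ⊴ G → (s : ℝ) ^ C ≤ avgDeg G →
        completeBipartiteGraph (Fin s) (Fin s) ⊑ G ∨
        ∃ U : Set V, U.Nonempty ∧ (cycleGraph 4).Free (G.induce U) ∧
          (s : ℝ) ≤ avgDeg (G.induce U) := by
  classical
  have := Fintype.ofFinite W
  -- a bicliques from finsets
  have hbic : ∀ (s : ℕ) (V : Type) (G : SimpleGraph V),
      ¬ completeBipartiteGraph (Fin s) (Fin s) ⊑ G → MP4d84d8.NoBic G s := by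
    rintro s V G hno ⟨A, B, hA, hB, hAB⟩
    apply hno
    have eA := (Finset.equivFinOfCardEq hA).symm
    have eB := (Finset.equivFinOfCardEq hB).symm
    refine ⟨⟨⟨Sum.elim (fun i => (eA i : V)) (fun i => (eB i : V)), ?_⟩, ?_⟩⟩
    · rintro (a | a) (b | b) h
      · simp at h
      · exact hAB _ (eA a).2 _ (eB b).2
      · exact (hAB _ (eA b).2 _ (eB a).2).symm
      · simp at h
    · rintro (a | a) (b | b) h
      · simp only [RelHom.coeFn_mk, Sum.elim_inl] at h
        have := eA.injective (Subtype.ext h)
        rw [this]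
      · simp only [RelHom.coeFn_mk, Sum.elim_inl, Sum.elim_inr] at h
        have := hAB _ (eA a).2 _ (eB b).2
        rw [h] at this
        exact absurd this (G.loopless.irrefl _)
      · simp only [RelHom.coeFn_mk, Sum.elim_inl, Sum.elim_inr] at h
        have := hAB _ (eA b).2 _ (eB a).2
        rw [h] at this
        exact absurd this (G.loopless.irrefl _)
      · simp only [RelHom.coeFn_mk, Sum.elim_inr] at h
        have := eB.injective (Subtype.ext h)
        rw [this]
  -- from the internal to the final form of the conclusion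
  have hgood : ∀ (s : ℕ) (V : Type) [Fintype V] (G : SimpleGraph V), MP4d84d8.Good G s →
      ∃ U : Set V, U.Nonempty ∧ (cycleGraph 4).Free (G.induce U) ∧
          (s : ℝ) ≤ avgDeg (G.induce U) := by
    rintro s V _ G ⟨U, hU, hC, hs⟩
    refine ⟨(U : Set V), by simpa using hU, ?_, ?_⟩
    · rintro ⟨f⟩
      have hadj : ∀ i j : Fin 4, (cycleGraph 4).Adj i j → G.Adj (f i : V) (f j : V) :=
        fun i j h => f.toHom.map_rel h
      have hne : ∀ i j : Fin 4, i ≠ j → (f i : V) ≠ (f j : V) := fun i j h hh =>
        h (f.injective (Subtype.ext hh))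
      refine hC _ (f 0).2 _ (f 1).2 _ (f 2).2 _ (f 3).2 (hne 0 2 (by decide))
        (hne 1 3 (by decide)) ⟨hadj 0 1 (by decide), hadj 1 2 (by decide), hadj 2 3 (by decide),
          hadj 3 0 (by decide)⟩
    · have h1 := ee_univ (G.induce (U : Set V))
      let φ : G.induce (U : Set V) ↪g G := SimpleGraph.Embedding.induce (U : Set V)
      have h2 : (Finset.univ : Finset (U : Set V)).map φ.toEmbedding = U := by
        ext v
        simp only [Finset.mem_map, Finset.mem_univ, true_and]
        constructor
        · rintro ⟨a, rfl⟩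
          exact a.2
        · intro hv
          exact ⟨⟨v, hv⟩, rfl⟩
      have h3 : MP4d84d8.ee (G.induce (U : Set V)) Finset.univ Finset.univ =
          MP4d84d8.ee G U U := by
        rw [← MP4d84d8.ee_map φ, h2]
      have h4 : Nat.card (U : Set V) = U.card := by simp
      unfold avgDeg
      rw [← h1, h3, h4, le_div_iff₀ (by exact_mod_cast Finset.card_pos.mpr hU)]
      exact_mod_cast hs
  -- the case s = 1
  have hone : ∀ (V : Type) [Fintype V] (G : SimpleGraph V), MP4d84d8.NoBic G 1 →
      (0 : ℝ) < avgDeg G → False := by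
    intro V _ G hno hpos
    have h0 : MP4d84d8.ee G Finset.univ Finset.univ = 0 := by
      unfold MP4d84d8.ee
      refine Finset.sum_eq_zero fun a _ => ?_
      rw [Finset.card_eq_zero, Finset.eq_empty_iff_forall_notMem]
      intro b hb
      rw [MP4d84d8.mem_nb] at hb
      refine hno ⟨{a}, {b}, by simp, by simp, ?_⟩
      intro x hx y hy
      rw [Finset.mem_singleton] at hx hy
      rw [hx, hy]
      exact hb.2
    have h1 := ee_univ G
    rw [h0] at h1
    unfold avgDeg at hpos
    rw [← h1] at hpos
    simp at hpos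
  -- main case, given a colouring with a `true` vertex
  have hmain : ∀ c : W → Bool, (∀ u v, H.Adj u v → c u ≠ c v) → (∃ w, c w = true) →
      ∃ C : ℕ, ∀ s : ℕ, 1 ≤ s → ∀ (V : Type) [Finite V] [Nonempty V] (G : SimpleGraph V),
      ¬ H ⊴ G → (s : ℝ) ^ C ≤ avgDeg G →
        completeBipartiteGraph (Fin s) (Fin s) ⊑ G ∨
        ∃ U : Set V, U.Nonempty ∧ (cycleGraph 4).Free (G.induce U) ∧
          (s : ℝ) ≤ avgDeg (G.induce U) := by
    intro c hc hex
    obtain ⟨C, hC⟩ := MP4d84d8.core H c hc hex
    refine ⟨C, ?_⟩
    intro s hs V _ _ G hfree hd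
    have := Fintype.ofFinite V
    by_cases hbc : completeBipartiteGraph (Fin s) (Fin s) ⊑ G
    · exact Or.inl hbc
    right
    have hno := hbic s V G hbc
    rcases Nat.lt_or_ge 1 s with hs2 | hs2
    · refine hgood s V G (hC s hs2 V G hfree hno ?_)
      rw [ee_univ]
      unfold avgDeg at hd
      have hc0 : (0 : ℝ) < Nat.card V := by exact_mod_cast Nat.card_pos
      rw [le_div_iff₀ hc0] at hd
      rwa [← Nat.card_eq_fintype_card]
    · have hs1 : s = 1 := by omega
      subst hs1
      exfalso
      refine hone V G hno (lt_of_lt_of_le ?_ hd)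
      simp
  obtain ⟨col⟩ := hH
  have hcol : ∀ u v, H.Adj u v → col u ≠ col v := fun u v h => col.valid h
  by_cases h0 : ∃ w, col w = 0
  · refine hmain (fun w => decide (col w = 0)) ?_ ?_
    · intro u v h
      have := hcol u v h
      simp only [ne_eq, decide_eq_decide]
      intro hh
      apply this
      rcases Fin.exists_fin_two.mp ⟨col u, rfl⟩ with hu | hu <;>
        rcases Fin.exists_fin_two.mp ⟨col v, rfl⟩ with hv | hv <;> simp_all
    · obtain ⟨w, hw⟩ := h0
      exact ⟨w, by simp [hw]⟩
  · by_cases h1 : Nonempty W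
    · obtain ⟨w⟩ := h1
      refine hmain (fun w => decide (col w = 1)) ?_ ?_
      · intro u v h
        have := hcol u v h
        push Not at h0
        exfalso
        apply this
        have hu := h0 u
        have hv := h0 v
        omega
      · push Not at h0
        have hw := h0 w
        refine ⟨w, ?_⟩
        simp only [decide_eq_true_eq]
        omega
    · refine ⟨0, ?_⟩
      intro s hs V _ _ G hfree _
      exfalso
      rw [not_nonempty_iff] at h1
      exact hfree (SimpleGraph.IsIndContained.of_isEmpty)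

end Pool.Agent.Results.MP_4d84d8_co.PolyDichotomy
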